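import Pool.Agent.H90.STK.Stmts

/-!
# Sticky families: the improvement step
-/

set_option autoImplicit false

namespace Pool.STK

open Finset Real MeasureTheory
open Pool.Agent.H49.Ent Pool.Agent.H32.Dense

namespace IMP

lemma isLaw_dbl {Ω β : Type} [Fintype Ω] {p : Ω → ℝ} (hp : IsLaw p) (b : Ω → β) :
    IsLaw (dbl p b) :=
  ⟨dbl_nonneg hp.nonneg, by rw [(dbl_fst hp.nonneg).sum]; exact hp.sum_one⟩

/-- Positions of the zoomed family. -/
lemma xav_zoom (hZX : ZXStmt) (hINT : INTStmt) {m : ℕ} {Ω ζ : Type} [Fintype Ω] {p : Ω → ℝ}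
    (u d : Ω → Fin m → ℝ) (Z : Ω → ζ) (hp : IsLaw p) (k r : ℕ) :
    Xav p (zo (r * k) u) (zo (r * k) d) (bb u d Z k r) k ≤
      (∫ t in (0 : ℝ)..1, CH p (Xp u d t ((r + 1) * k)) (bb u d Z k r)) + cc m := by
  have e : (r + 1) * k = r * k + k := by ring
  rw [e]
  unfold Xav
  have i1 := (hINT m Ω _ p (zo (r * k) u) (zo (r * k) d) hp).1 (bb u d Z k r) k 0 1
  have i2 := (hINT m Ω _ p u d hp).1 (bb u d Z k r) (r * k + k) 0 1
  have h1 : ∫ t in (0 : ℝ)..1, CH p (Xp (zo (r * k) u) (zo (r * k) d) t k) (bb u d Z k r) ≤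
      ∫ t in (0 : ℝ)..1, (CH p (Xp u d t (r * k + k)) (bb u d Z k r) + cc m) := by
    apply intervalIntegral.integral_mono_on (by norm_num) i1
      (i2.add intervalIntegrable_const)
    intro t ht
    have := hZX m Ω ζ p u d Z hp (r * k) k t ht.1 ht.2
    have h2 := (abs_le.mp this).2
    unfold bb
    linarith
  refine h1.trans (le_of_eq ?_)
  rw [intervalIntegral.integral_add i2 intervalIntegrable_const]
  simp

/-- Doubling of the zoomed family. -/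
lemma dav_zoom (hZX : ZXStmt) (hZ2 : Z2Stmt) (hINT : INTStmt) (hIN2 : IN2Stmt) {m : ℕ}
    {Ω ζ : Type} [Fintype Ω] {p : Ω → ℝ}
    (u d : Ω → Fin m → ℝ) (Z : Ω → ζ) (hp : IsLaw p) (k r : ℕ) :
    Dav p (zo (r * k) u) (zo (r * k) d) (bb u d Z k r) k ≤
      (∫ t in (0 : ℝ)..1, th p u d Z k r t) + 2 * cc m := by
  have e : (r + 1) * k = r * k + k := by ring
  unfold Dav th
  rw [e]
  have hd := isLaw_dbl hp (bb u d Z k r)
  have i1 := (hINT m Ω _ p (zo (r * k) u) (zo (r * k) d) hp).1 (bb u d Z k r) k 0 1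
  have i2 := (hINT m Ω _ p u d hp).1 (bb u d Z k r) (r * k + k) 0 1
  have i3 := hIN2 m Ω (Ω × Ω) _ (dbl p (bb u d Z k r)) (fun w => w.2) (fun w => w.1)
    (zo (r * k) u) (zo (r * k) d) hd (fun w => bb u d Z k r w.1) k 0 1
  have i4 := hIN2 m Ω (Ω × Ω) _ (dbl p (bb u d Z k r)) (fun w => w.2) (fun w => w.1)
    u d hd (fun w => bb u d Z k r w.1) (r * k + k) 0 1
  have h1 : ∫ t in (0 : ℝ)..1, (CH (dbl p (bb u d Z k r))
      (fun w => Xp (zo (r * k) u) (zo (r * k) d) t k w.2 -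
        Xp (zo (r * k) u) (zo (r * k) d) t k w.1) (fun w => bb u d Z k r w.1) -
      CH p (Xp (zo (r * k) u) (zo (r * k) d) t k) (bb u d Z k r)) ≤
      ∫ t in (0 : ℝ)..1, ((CH (dbl p (bb u d Z k r))
        (fun w => Xp u d t (r * k + k) w.2 - Xp u d t (r * k + k) w.1)
        (fun w => bb u d Z k r w.1) - CH p (Xp u d t (r * k + k)) (bb u d Z k r)) +
        2 * cc m) := by
    apply intervalIntegral.integral_mono_on (by norm_num) (i3.sub i1)
      ((i4.sub i2).add intervalIntegrable_const)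
    intro t ht
    have h2 := (abs_le.mp (hZX m Ω ζ p u d Z hp (r * k) k t ht.1 ht.2)).1
    have h3 := hZ2 m Ω ζ p u d Z hp (r * k) k t ht.1 ht.2
    unfold bb
    linarith
  refine h1.trans (le_of_eq ?_)
  rw [intervalIntegral.integral_add (i4.sub i2) intervalIntegrable_const]
  simp

end IMP

open IMP in
theorem imp_thm (hCOR : CORStmt) (hSDC : SDCStmt) (hRED : REDStmt) (hPAR : PARStmt)
    (hZD : ZDStmt) (hZX : ZXStmt) (hZ2 : Z2Stmt) (hINT : INTStmt) (hIN2 : IN2Stmt) :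
    IMPStmt := by
  intro m a R ha hR hG
  have ha0 : 0 < a := by linarith
  obtain ⟨C₁, hC₁, k₁, hS⟩ := hSDC m a (R / 4) ha (by linarith)
  obtain ⟨η, hη, hP⟩ := hPAR m a R C₁ ha hR hC₁
  obtain ⟨ε₁, hε₁, J₁, hG1⟩ := hG (R + 2 * η) (by linarith)
  obtain ⟨N, hN, ε, hε, k₂, hP2⟩ := hP ε₁ hε₁
  obtain ⟨J₀, hR0⟩ := hRED m a R η ε N ha.le hη hε hN
  refine ⟨R - η, by linarith, ?_⟩
  by_contra hbad
  unfold GoodEv at hbad
  push Not at hbad
  obtain ⟨J, hJ, hnot⟩ := hbad ε hε (max J₀ (N * (k₁ + k₂ + J₁)))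
  unfold Good at hnot
  push Not at hnot
  obtain ⟨Ω, ζ, hF, p, u, d, Z, hp, hd, hst, hlt⟩ := hnot
  obtain ⟨k, hk⟩ : ∃ k : ℕ, k = J / N := ⟨_, rfl⟩
  have hkk : k₁ + k₂ + J₁ ≤ k := by
    rw [hk, Nat.le_div_iff_mul_le (by omega), mul_comm]
    exact (le_max_right _ _).trans hJ
  have hNk : k ≤ N * k := Nat.le_mul_of_pos_left k (by omega)
  obtain ⟨hst', hbig⟩ := hR0 J ((le_max_left _ _).trans hJ) Ω ζ p u d Z hp hst hlt.le
  rw [← hk] at hst' hbig
  obtain ⟨p1, p2, p3⟩ := hP2 k (by omega)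
  obtain ⟨r, hr, hv, hth⟩ := hCOR m a R (2 * η) (2 * ε) ε₁ N k Ω ζ p u d Z hp hd ha hN
    (hG1 k (by omega)) (hG1 (N * k) (by omega)) p1 p2 hst' hbig
  have hsd := hS k (by omega) Ω _ p (zo (r * k) u) (zo (r * k) d) (bb u d Z k r) hp
    (fun ω i => ⟨Int.fract_nonneg _, Int.fract_lt_one _⟩)
    (fun ω i => ⟨Int.fract_nonneg _, Int.fract_lt_one _⟩)
  have hzd : CH p (Fl (zo (r * k) d) k) (bb u d Z k r) =
      CH p (Fl d ((r + 1) * k)) (bb u d Z k r) := by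
    have := hZD m Ω ζ p u d Z hp (r * k) k
    have e : (r + 1) * k = r * k + k := by ring
    rw [e]
    exact this
  rw [hzd] at hsd
  have h1 := xav_zoom hZX hINT u d Z hp k r
  have h2 := dav_zoom hZX hZ2 hINT hIN2 u d Z hp k r
  have h3 : a * Xav p (zo (r * k) u) (zo (r * k) d) (bb u d Z k r) k ≤
      a * ((∫ t in (0 : ℝ)..1, CH p (Xp u d t ((r + 1) * k)) (bb u d Z k r)) + cc m) :=
    mul_le_mul_of_nonneg_left h1 ha0.le
  have h4 : C₁ * Dav p (zo (r * k) u) (zo (r * k) d) (bb u d Z k r) k ≤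
      C₁ * (2 * B3 m a (2 * η) (2 * ε) N k / N + 2 * cc m) :=
    mul_le_mul_of_nonneg_left (h2.trans (by linarith)) hC₁
  unfold vv at hv
  have hk0 : (0 : ℝ) ≤ k := Nat.cast_nonneg k
  have h5 : 0 ≤ R * k := by positivity
  have h6 : 0 ≤ η * k := by positivity
  nlinarith

end Pool.STK
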