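import Pool.Agent.H90.STK.Stmts

/-!
# Sticky families: choice of the parameters
-/

set_option autoImplicit false

namespace Pool.STK

open Finset Real MeasureTheory
open Pool.Agent.H49.Ent Pool.Agent.H32.Dense

namespace PAR

lemma cc_nonneg (m : ℕ) : 0 ≤ cc m := by
  unfold cc
  have : 0 ≤ Real.log 100 := Real.log_nonneg (by norm_num)
  positivity

lemma total (m : ℕ) (a C₁ η ε n k b b' x : ℝ) (N : ℕ) (K : ℕ) (hn : (N : ℝ) = n)
    (hk : (K : ℝ) = k) (hb : b = 1 / (a - 1)) (hb' : b' = 1 / a) (hx : x = 1 / n)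
    (hN : 0 < n) (ha : 0 < a) (ha1 : 0 < a - 1) :
    2 * BB m a (2 * η) (2 * ε) N K / N + C₁ * (2 * B3 m a (2 * η) (2 * ε) N K / N + 2 * cc m) =
      (8 + 16 * C₁ * b + 8 * C₁ * b') * η * k + (4 + 4 * C₁ * b + 4 * C₁ * b') * (ε * n) * k +
      (2 * C₁ * b * (m * Real.log 2)) * x * k +
      (2 * (2 * a + x) * cc m + C₁ * (4 * (2 * a + x) * cc m * b +
        (2 * (2 * a + x) * cc m + 4 * a * cc m) * b' + 4 * cc m)) := by
  subst hb hb' hx
  unfold B3 B2 BB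
  rw [hn, hk]
  field_simp
  ring

end PAR

open PAR in
theorem par_thm : PARStmt := by
  intro m a R C₁ ha hR hC
  have ha0 : 0 < a := by linarith
  have ha1 : 0 < a - 1 := by linarith
  obtain ⟨b, hb⟩ : ∃ b : ℝ, b = 1 / (a - 1) := ⟨_, rfl⟩
  obtain ⟨b', hb'⟩ : ∃ b' : ℝ, b' = 1 / a := ⟨_, rfl⟩
  have hbp : 0 < b := by rw [hb]; positivity
  have hbp' : 0 < b' := by rw [hb']; positivity
  have hc := cc_nonneg m
  have hlog : 0 ≤ (m : ℝ) * Real.log 2 := by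
    have : 0 ≤ Real.log 2 := Real.log_nonneg (by norm_num)
    positivity
  obtain ⟨L, hL⟩ : ∃ L : ℝ, L = (m : ℝ) * Real.log 2 := ⟨_, rfl⟩
  have hL0 : 0 ≤ L := hL ▸ hlog
  obtain ⟨Q, hQ⟩ : ∃ Q : ℝ, Q = 8 + 16 * C₁ * b + 8 * C₁ * b' := ⟨_, rfl⟩
  have hCb : 0 ≤ C₁ * b := by positivity
  have hCb' : 0 ≤ C₁ * b' := by positivity
  have hQ8 : 0 < Q := by rw [hQ]; nlinarith
  refine ⟨R / (16 * Q), by positivity, ?_⟩
  intro ε₁ hε₁
  obtain ⟨N₀, hN₀⟩ := exists_nat_ge (4 * L / ε₁ + 32 * (C₁ * b * L) / R)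
  obtain ⟨N, hN⟩ : ∃ N : ℕ, N = N₀ + 1 := ⟨_, rfl⟩
  have hN1 : 1 ≤ N := by omega
  have hNr : (1 : ℝ) ≤ N := by exact_mod_cast hN1
  have hNr0 : (0 : ℝ) < N := by linarith
  have hNb : 4 * L / ε₁ + 32 * (C₁ * b * L) / R ≤ N := by
    refine hN₀.trans ?_
    rw [hN]
    push_cast
    linarith
  have h1 : 0 ≤ 4 * L / ε₁ := by positivity
  have h2 : 0 ≤ 32 * (C₁ * b * L) / R := by positivity
  have hNa : 4 * L ≤ ε₁ * N := by
    have : 4 * L / ε₁ ≤ N := by linarith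
    rw [div_le_iff₀ hε₁] at this
    linarith
  have hNc : 32 * (C₁ * b * L) ≤ R * N := by
    have : 32 * (C₁ * b * L) / R ≤ N := by linarith
    rw [div_le_iff₀ hR] at this
    linarith
  refine ⟨N, hN1, ?_⟩
  obtain ⟨ε, hε⟩ : ∃ ε : ℝ, ε = min (ε₁ / (8 * N)) (R / (16 * N * Q)) := ⟨_, rfl⟩
  have hεpos : 0 < ε := by
    rw [hε]
    apply lt_min <;> positivity
  have hεa : ε * N ≤ ε₁ / 8 := by
    have : ε ≤ ε₁ / (8 * N) := hε ▸ min_le_left _ _
    calc ε * N ≤ ε₁ / (8 * N) * N := by gcongr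
      _ = ε₁ / 8 := by field_simp
  have hεb : ε * N * Q ≤ R / 16 := by
    have : ε ≤ R / (16 * N * Q) := hε ▸ min_le_right _ _
    calc ε * N * Q ≤ R / (16 * N * Q) * N * Q := by gcongr
      _ = R / 16 := by field_simp
  refine ⟨ε, hεpos, ?_⟩
  obtain ⟨W, hW⟩ : ∃ W : ℝ, W = 2 * (2 * a + 1) * cc m + C₁ * (4 * (2 * a + 1) * cc m * b +
        (2 * (2 * a + 1) * cc m + 4 * a * cc m) * b' + 4 * cc m) := ⟨_, rfl⟩
  have hW0 : 0 ≤ W := by rw [hW]; positivity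
  obtain ⟨k₂, hk₂⟩ := exists_nat_ge (8 * cc m / ε₁ + 16 * W / R + 1)
  refine ⟨k₂, fun k hk => ?_⟩
  have h3 : 0 ≤ 8 * cc m / ε₁ := by positivity
  have h4 : 0 ≤ 16 * W / R := by positivity
  have hkr : 8 * cc m / ε₁ + 16 * W / R + 1 ≤ k := hk₂.trans (by exact_mod_cast hk)
  have hk1 : (1 : ℝ) ≤ k := by linarith
  have hka : 8 * cc m ≤ ε₁ * k := by
    have : 8 * cc m / ε₁ ≤ k := by linarith
    rw [div_le_iff₀ hε₁] at this
    linarith
  have hkb : 16 * W ≤ R * k := by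
    have : 16 * W / R ≤ k := by linarith
    rw [div_le_iff₀ hR] at this
    linarith
  refine ⟨by nlinarith, ?_, ?_⟩
  · -- the second condition
    have e1 : 2 * ε * (N * k) = 2 * (ε * N) * k := by ring
    have e2 : (m : ℝ) * (k * Real.log 2) = L * k := by rw [hL]; ring
    rw [e1, e2]
    have hk0 : (0 : ℝ) ≤ k := by linarith
    have i1 : 2 * (ε * N) * k ≤ ε₁ / 4 * k := by
      have : 2 * (ε * N) ≤ ε₁ / 4 := by linarith
      exact mul_le_mul_of_nonneg_right this hk0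
    have i2 : L * k ≤ ε₁ / 4 * N * k := by
      have : L ≤ ε₁ / 4 * N := by linarith
      exact mul_le_mul_of_nonneg_right this hk0
    have i3 : 2 * cc m ≤ ε₁ / 4 * k := by linarith
    have i4 : ε₁ * k ≤ ε₁ * (N * k) := by
      have : (k : ℝ) ≤ N * k := by nlinarith
      exact mul_le_mul_of_nonneg_left this hε₁.le
    nlinarith
  · obtain ⟨x, hx⟩ : ∃ x : ℝ, x = 1 / (N : ℝ) := ⟨_, rfl⟩
    have hx1 : x ≤ 1 := by
      rw [hx, div_le_one hNr0]
      exact hNr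
    have hx0 : 0 ≤ x := by rw [hx]; positivity
    rw [total m a C₁ (R / (16 * Q)) ε N k b b' x N k rfl rfl hb hb' hx hNr0 ha0 ha1, ← hQ, ← hL]
    have hk0 : (0 : ℝ) ≤ k := by linarith
    have j1 : Q * (R / (16 * Q)) * k = R / 16 * k := by field_simp
    have j2 : (4 + 4 * C₁ * b + 4 * C₁ * b') * (ε * N) * k ≤ R / 16 * k := by
      have s1 : 4 + 4 * C₁ * b + 4 * C₁ * b' ≤ Q := by rw [hQ]; nlinarith
      have s2 : 0 ≤ ε * N := by positivity
      have s3 : (4 + 4 * C₁ * b + 4 * C₁ * b') * (ε * N) ≤ Q * (ε * N) :=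
        mul_le_mul_of_nonneg_right s1 s2
      have s4 : (4 + 4 * C₁ * b + 4 * C₁ * b') * (ε * N) ≤ R / 16 := by linarith
      exact mul_le_mul_of_nonneg_right s4 hk0
    have j3 : 2 * C₁ * b * L * x * k ≤ R / 16 * k := by
      have s1 : 2 * C₁ * b * L * x ≤ R / 16 := by
        have : 2 * C₁ * b * L ≤ R / 16 * N := by nlinarith
        calc 2 * C₁ * b * L * x ≤ R / 16 * N * x := mul_le_mul_of_nonneg_right this hx0
          _ = R / 16 := by rw [hx]; field_simp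
      exact mul_le_mul_of_nonneg_right s1 hk0
    have j4 : 2 * (2 * a + x) * cc m + C₁ * (4 * (2 * a + x) * cc m * b +
        (2 * (2 * a + x) * cc m + 4 * a * cc m) * b' + 4 * cc m) ≤ W := by
      rw [hW]
      gcongr
    have j5 : 0 < R * k := by positivity
    rw [j1]
    linarith

end Pool.STK
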